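import Pool.Agent.Helper94.LCY.Main

/-!
# A log Calabi-Yau pair of index one with `n + ρ - 1` boundary components, not of cluster type

The variety `X` is the projective cone over `E x ℙ^1 ⊆ ℙ^5` (Segre embedding), where
`E ⊆ ℙ^2` is the Fermat cubic; so `X ⊆ ℙ^6` has dimension `n = 3`. Its Picard group is `ℤ`, so
`ρ(X) = 1`. The boundary `B` consists of the section at infinity and of the cones over
`E x {0}` and `E x {∞}`, so it has `3 = n + ρ - 1` components. The function field of `X` is not
purely transcendental over `ℂ`, so `(X, B)` is not of cluster type.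
-/

namespace Pool.Agent.Results.MP_c22f44_ag.ConeCounterexample

open Pool.Agent.Helper94.LCY

/-- There is a log Calabi-Yau pair `(X, B)` of dimension `3` and index one, with `Pic X ≅ ℤ` and
Picard rank `ρ = 1`, whose boundary `B` has exactly `3 = n + ρ - 1` components, whose function
field is not purely transcendental, and which is not of cluster type. -/
theorem result : ∃ (K : Type) (_ : Field K) (_ : Algebra ℂ K)
    (X : ProjVar K (Option (Fin 3 × Fin 2))) (B : X.PrimeDiv → ℚ),
    IsLogCY 3 X B ∧ IndexOne 3 X B ∧ Nonempty (X.Pic ≃+ ℤ) ∧ X.picardRank = 1 ∧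
      (Function.support B).ncard = 3 ∧ (∀ n, IsEmpty (RatField n ≃ₐ[ℂ] K)) ∧
      ¬ IsClusterType 3 X B := main

end Pool.Agent.Results.MP_c22f44_ag.ConeCounterexample
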